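import Pool.Agent.Y561.RC.Inf

/-!
# The `F`-closure and the strong 2-closure of a permutation group, `F` an ordered field

Stronger form of the starting result `RealClosure` (`F = ℝ`, the full answer to Q1): the field of
real numbers is replaced by an arbitrary ordered field, and the influence of the field is
determined on cyclic groups.
-/

set_option autoImplicit false

universe u v

namespace Pool.Agent.Results.MP_5a426c_al.OrderedFields

open Pool.Agent.Y561.RC
open Pool.Agent.Results.MP_5a426c_al.RealClosure (strongTwoClosure)

theorem result :
    -- (1) the answer to Q1: over `ℝ` the closures agree, except for the trivial group on two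
    -- points
    (∀ (Ω : Type u) [Finite Ω] (G : Subgroup (Equiv.Perm Ω)),
      fieldClosure ℝ G = strongTwoClosure G ↔ ¬ (Nat.card Ω = 2 ∧ G = ⊥)) ∧
    -- (2) the same over every ordered field over which all rational polynomials with only real
    -- roots split
    (∀ (F : Type v) [Field F] [LinearOrder F] [IsStrictOrderedRing F], RealRootsSplit F →
      ∀ (Ω : Type u) [Finite Ω] (G : Subgroup (Equiv.Perm Ω)),
        fieldClosure F G = strongTwoClosure G ↔ ¬ (Nat.card Ω = 2 ∧ G = ⊥)) ∧
    -- (3) one inclusion over every ordered field
    (∀ (F : Type v) [Field F] [LinearOrder F] [IsStrictOrderedRing F]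
      (Ω : Type u) [Finite Ω] (G : Subgroup (Equiv.Perm Ω)), ¬ (Nat.card Ω = 2 ∧ G = ⊥) →
        strongTwoClosure G ⊆ fieldClosure F G) ∧
    -- (4) the other inclusion depends on the field: for the regular cyclic group of order `n`
    -- and a subfield `F` of `ℝ` it holds exactly if `2 cos (2π/n)` lies in `F`
    (∀ (n : ℕ), 3 ≤ n → ∀ F : Subfield ℝ,
      (fieldClosure F (cyc n) = strongTwoClosure (cyc n) ↔
        2 * Real.cos (2 * Real.pi / n) ∈ F)) ∧
    -- (5) on infinite sets even the inclusion (3) fails, over every ordered field: the
    -- reflection of `ℤ` with respect to the translations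
    (∀ (F : Type v) [Field F] [LinearOrder F] [IsStrictOrderedRing F],
      Equiv.neg ℤ ∈ strongTwoClosure translations ∧
        Equiv.neg ℤ ∉ fieldClosure F translations) := by
  have main : ∀ (F : Type v) [Field F] [LinearOrder F] [IsStrictOrderedRing F],
      RealRootsSplit F → ∀ (Ω : Type u) [Finite Ω] (G : Subgroup (Equiv.Perm Ω)),
        fieldClosure F G = strongTwoClosure G ↔ ¬ (Nat.card Ω = 2 ∧ G = ⊥) := by
    intro F _ _ _ hF Ω _ G
    classical
    have := Fintype.ofFinite Ω
    constructor
    · rintro h ⟨h2, rfl⟩
      exact exception_field F h2 h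
    · intro hG
      apply Set.Subset.antisymm
      · exact subset_strong (fun s _ => span_of_realRootsSplit hF _ (orb_symm G s))
      · exact strong_subset hG
  refine ⟨?_, main, ?_, ?_, fun F _ _ _ => ⟨neg_strong, neg_not_closure F⟩⟩
  · intro Ω _ G
    classical
    have := Fintype.ofFinite Ω
    have hR : RealRootsSplit ℝ := fun p hp => hp
    constructor
    · rintro h ⟨h2, rfl⟩
      exact exception_field ℝ h2 h
    · intro hG
      apply Set.Subset.antisymm
      · exact subset_strong (fun s _ => span_of_realRootsSplit hR _ (orb_symm G s))
      · exact strong_subset hG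
  · intro F _ _ _ Ω _ G hG
    classical
    have := Fintype.ofFinite Ω
    exact strong_subset hG
  · intro n hn F
    classical
    have hn0 : NeZero n := ⟨by omega⟩
    have hG : ¬ (Nat.card (ZMod n) = 2 ∧ cyc n = ⊥) := by
      rintro ⟨h, -⟩
      rw [Nat.card_zmod] at h
      omega
    constructor
    · intro h
      by_contra hc
      obtain ⟨u, hcop, h1, h2, hu⟩ := nec F n hn hc
      let σ : Equiv.Perm (ZMod n) := Units.mulLeft (ZMod.unitOfCoprime u hcop)
      have hσ : ∀ x, σ x = (u : ZMod n) * x := fun x => rfl
      have h3 := hu σ hσ
      rw [h] at h3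
      exact not_strong n (u : ZMod n) h1 h2 hn hσ h3
    · intro hc
      apply Set.Subset.antisymm
      · intro σ hσ
        exact dih_strong n (closure_dih n F hn hc hσ)
      · exact strong_subset hG

end Pool.Agent.Results.MP_5a426c_al.OrderedFields
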